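import Pool.Agent.H66.L.S8.Y504.CO.Asm

/-!
# From `Cyc` to cycles in terms of stable and unstable sets; eigenvalues
-/

set_option autoImplicit false
set_option linter.unusedSectionVars false

open scoped Manifold ContDiff Topology
open Filter Set Metric

universe u

namespace Pool.Agent.Y504.CO

open Pool.Agent.H718R2.G Pool.Agent.TH80.OMS

section top

variable {X : Type u}

theorem iter_mul_per {f : X → X} {p : X} {m : ℕ} (hm : f^[m] p = p) (l : ℕ) :
    f^[m * l] p = p := by
  rw [Function.iterate_mul]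
  exact Function.iterate_fixed hm l

theorem iter_mod {f : X → X} {p : X} {m : ℕ} (hm : f^[m] p = p) (i : ℕ) :
    f^[i % m] p = f^[i] p := by
  conv_rhs => rw [← Nat.mod_add_div i m, Function.iterate_add_apply, iter_mul_per hm]

theorem orb_finite {f : X → X} {p : X} (hp : p ∈ Per f) : (orb f p).Finite := by
  obtain ⟨m, hm1, hm⟩ := hp
  refine ((Set.finite_Iio m).image (fun i => f^[i] p)).subset ?_
  rintro _ ⟨i, rfl⟩
  exact ⟨i % m, Nat.mod_lt _ hm1, iter_mod hm i⟩

theorem orb_iter {f : X → X} {p y : X} (hy : y ∈ orb f p) (i : ℕ) : f^[i] y ∈ orb f p := by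
  obtain ⟨j, rfl⟩ := hy
  exact ⟨i + j, Function.iterate_add_apply _ _ _ _⟩

theorem mem_orb_self (f : X → X) (p : X) : p ∈ orb f p := ⟨0, rfl⟩

theorem orb_back {f : X → X} {p y : X} (hp : p ∈ Per f) (hy : y ∈ orb f p) : p ∈ orb f y := by
  obtain ⟨m, hm1, hm⟩ := hp
  obtain ⟨j, rfl⟩ := hy
  refine ⟨m * (j + 1) - j, ?_⟩
  show f^[m * (j + 1) - j] (f^[j] p) = p
  rw [← Function.iterate_add_apply, Nat.sub_add_cancel (by nlinarith), iter_mul_per hm]

theorem orb_eq {f : X → X} {p y : X} (hp : p ∈ Per f) (hy : y ∈ orb f p) : orb f y = orb f p := by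
  apply Subset.antisymm
  · rintro _ ⟨i, rfl⟩
    exact orb_iter hy i
  · rintro _ ⟨i, rfl⟩
    exact orb_iter (orb_back hp hy) i

theorem orb_disjoint {f : X → X} {p q : X} (hp : p ∈ Per f) (hq : q ∈ Per f)
    (h : orb f p ≠ orb f q) : Disjoint (orb f p) (orb f q) := by
  rw [Set.disjoint_left]
  intro y hyp hyq
  exact h ((orb_eq hp hyp).symm.trans (orb_eq hq hyq))

end top

section stab

variable {X : Type u} [TopologicalSpace X] [T2Space X]

theorem stab_ev {f : X → X} {p x y : X} (hp : p ∈ Per f) (hx : x ∈ orb f p) (g : X → X)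
    (hg : ∀ a ∈ orb f p, g a ∈ orb f p) (hy : y ∈ StabSet g x) (O : Set X) (hO : IsOpen O)
    (hpO : orb f p ⊆ O) : ∀ᶠ i : ℕ in atTop, g^[i] y ∈ O := by
  have hc : IsClosed (orb f p) := (orb_finite hp).isClosed
  have hV : IsOpen ({q : X × X | q.1 ∈ (orb f p)ᶜ} ∪ {q : X × X | q.2 ∈ O}) :=
    (hc.isOpen_compl.preimage continuous_fst).union (hO.preimage continuous_snd)
  obtain ⟨K, hK⟩ := hy _ hV (fun z => by
    by_cases hz : z ∈ orb f p
    · exact Or.inr (hpO hz)
    · exact Or.inl hz)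
  have hit : ∀ i, g^[i] x ∈ orb f p := by
    intro i
    induction i with
    | zero => exact hx
    | succ i ih => rw [Function.iterate_succ_apply']; exact hg _ ih
  filter_upwards [eventually_ge_atTop K] with i hi
  rcases hK i hi with h | h
  · exact absurd (hit i) h
  · exact h

end stab

section nc

variable {n : ℕ} {N : Type u} [TopologicalSpace N] [T2Space N] [CompactSpace N]
  [ChartedSpace (V n) N]

theorem symm_iter {r : ℕ∞} (F : DiffM n N r) (z : N) (k : ℕ) :
    ((F.toEquiv : Equiv.Perm N) ^ (-(k : ℤ))) z = F.symm^[k] z := by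
  induction k with
  | zero => simp
  | succ k ih =>
    rw [Function.iterate_succ_apply', ← ih]
    have e : (-((k + 1 : ℕ) : ℤ)) = (-1) + (-(k : ℤ)) := by push_cast; ring
    rw [e, zpow_add, Equiv.Perm.mul_apply, zpow_neg_one]
    rfl

theorem pos_iter {r : ℕ∞} (F : DiffM n N r) (z : N) (k : ℕ) :
    ((F.toEquiv : Equiv.Perm N) ^ (k : ℤ)) z = F^[k] z := by
  induction k with
  | zero => simp
  | succ k ih =>
    rw [Function.iterate_succ_apply', ← ih]
    have e : (((k + 1 : ℕ) : ℤ)) = 1 + (k : ℤ) := by push_cast; ring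
    rw [e, zpow_add, Equiv.Perm.mul_apply, zpow_one]
    rfl

theorem alpha_of_stab {r : ℕ∞} (F : DiffM n N r) {p x z : N} (hp : p ∈ Per F)
    (hx : x ∈ orb F p) (hz : z ∈ StabSet F.symm x) : AlphaTo F z p := by
  refine ⟨fun i => ((F.toEquiv : Equiv.Perm N) ^ i) z, ?_, by simp, ?_⟩
  · intro i
    show F (((F.toEquiv : Equiv.Perm N) ^ i) z) = ((F.toEquiv : Equiv.Perm N) ^ (i + 1)) z
    have e : i + 1 = 1 + i := by ring
    rw [e, zpow_add, Equiv.Perm.mul_apply, zpow_one]
    rfl
  · intro O hO hpO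
    have hg : ∀ a ∈ orb F p, F.symm a ∈ orb F p := by
      rintro _ ⟨j, rfl⟩
      obtain ⟨m, hm1, hm⟩ := hp
      refine ⟨j + m * 1 - 1, ?_⟩
      have e1 : F^[j + m * 1] p = F^[j] p := by
        rw [Function.iterate_add_apply, iter_mul_per hm]
      have e2 : j + m * 1 = (j + m * 1 - 1) + 1 := by omega
      rw [e2, Function.iterate_succ_apply'] at e1
      show F^[j + m * 1 - 1] p = F.symm (F^[j] p)
      rw [← e1]
      exact (F.symm_apply_apply _).symm
    have h1 := stab_ev hp hx F.symm hg hz O hO hpO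
    rw [eventually_atTop] at h1
    obtain ⟨K, hK⟩ := h1
    rw [eventually_atBot]
    refine ⟨-(K : ℤ), fun i hi => ?_⟩
    have h2 := hK (-i).toNat (by omega)
    have e : i = -(((-i).toNat : ℕ) : ℤ) := by omega
    rw [e]
    show ((F.toEquiv : Equiv.Perm N) ^ (-(((-i).toNat : ℕ) : ℤ))) z ∈ O
    rw [symm_iter]
    exact h2

theorem omega_of_stab {r : ℕ∞} (F : DiffM n N r) {p x z : N} (hp : p ∈ Per F)
    (hx : x ∈ orb F p) (hz : z ∈ StabSet F x) : OmegaTo F z p := by
  intro O hO hpO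
  exact stab_ev hp hx F (fun a ha => orb_iter ha 1) hz O hO hpO

theorem not_mem_of_omega {f : N → N} {p q z : N} (hp : p ∈ Per f) (hq : q ∈ Per f)
    (hd : Disjoint (orb f p) (orb f q)) (h : OmegaTo f z q) : z ∉ orb f p := by
  intro hz
  obtain ⟨K, hK⟩ := eventually_atTop.1 (h (orb f p)ᶜ (orb_finite hp).isClosed.isOpen_compl
    (fun y hy hy' => Set.disjoint_left.1 hd hy' hy))
  exact hK K le_rfl (orb_iter hz K)

theorem not_mem_of_alpha {r : ℕ∞} (F : DiffM n N r) {p q z : N} (hp : p ∈ Per F) (hq : q ∈ Per F)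
    (hd : Disjoint (orb F p) (orb F q)) (h : AlphaTo F z q) : z ∉ orb F p := by
  intro hz
  obtain ⟨x, hx, hx0, hO⟩ := h
  obtain ⟨K, hK⟩ := eventually_atBot.1 (hO (orb F p)ᶜ (orb_finite hp).isClosed.isOpen_compl
    (fun y hy hy' => Set.disjoint_left.1 hd hy' hy))
  have hback : ∀ k : ℕ, x (-(k : ℤ)) ∈ orb F p := by
    intro k
    induction k with
    | zero => simpa [hx0] using hz
    | succ k ih =>
      have e1 := hx (-((k + 1 : ℕ) : ℤ))
      have e2 : -((k + 1 : ℕ) : ℤ) + 1 = -(k : ℤ) := by push_cast; ring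
      rw [e2] at e1
      obtain ⟨m, hm1, hm⟩ := hp
      obtain ⟨j, hj⟩ := ih
      have hj : F^[j] p = x (-(k : ℤ)) := hj
      refine ⟨j + m * 1 - 1, ?_⟩
      have e3 : F^[j + m * 1] p = F^[j] p := by
        rw [Function.iterate_add_apply, iter_mul_per hm]
      have e4 : j + m * 1 = (j + m * 1 - 1) + 1 := by omega
      rw [e4, Function.iterate_succ_apply', hj, ← e1] at e3
      exact F.injective e3
  have h1 := hback (-(min K 0)).toNat
  have e : -(((-(min K 0)).toNat : ℕ) : ℤ) = min K 0 := by omega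
  rw [e] at h1
  exact hK (min K 0) (by omega) h1

theorem finiteNoCycle {r : ℕ∞} (F : DiffM n N r) (hfin : (Omega F).Finite)
    (h : ∀ k, ¬ Cyc F k) : FiniteNoCycle F := by
  refine ⟨hfin, ?_⟩
  intro k O hinj hO hcyc
  choose p hp hpO using hO
  choose x hx x' hx' hz using hcyc
  choose z hz using hz
  have hx1 : ∀ i, x i ∈ orb F (p i) := fun i => by
    have := hx i
    rw [hpO i] at this
    exact this
  have hx2 : ∀ i, x' i ∈ orb F (p (i + 1)) := fun i => by
    have := hx' i
    rw [hpO (i + 1)] at this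
    exact this
  have hdis : ∀ i j, i ≠ j → Disjoint (orb F (p i)) (orb F (p j)) := by
    intro i j hij
    apply orb_disjoint (hp i) (hp j)
    intro he
    apply hij
    apply hinj
    rw [hpO i, hpO j]
    exact he
  have hne : ∀ i : Fin (k + 2), i ≠ i + 1 := by
    intro i hi
    have h1 : (1 : Fin (k + 2)) = 0 := by
      have := congrArg (fun t => t - i) hi
      simpa using this.symm
    exact absurd h1 (by simp)
  have hconn : ∀ i, Conn F (z i) (p i) (p (i + 1)) := by
    intro i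
    have ha := alpha_of_stab F (hp i) (hx1 i) (hz i).1
    have ho := omega_of_stab F (hp (i + 1)) (hx2 i) (hz i).2
    exact ⟨not_mem_of_omega (hp i) (hp (i + 1)) (hdis _ _ (hne i)) ho,
      not_mem_of_alpha F (hp (i + 1)) (hp i) (hdis _ _ (hne i).symm) ha, ha, ho⟩
  apply h (k + 1)
  refine ⟨fun i => p (Fin.ofNat (k + 2) i), fun i => z (Fin.ofNat (k + 2) i), fun i _ => hp _,
    ?_, ?_, ?_⟩
  · intro i hi j hj hij
    apply hdis
    intro he
    apply hij
    have := congrArg Fin.val he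
    simp only [Fin.ofNat, Nat.mod_eq_of_lt (show i < k + 2 by omega),
      Nat.mod_eq_of_lt (show j < k + 2 by omega)] at this
    exact this
  · intro i hi
    have e : (Fin.ofNat (k + 2) (i + 1)) = Fin.ofNat (k + 2) i + 1 := by
      apply Fin.ext
      simp [Fin.ofNat, Fin.val_add]
    show Conn F _ _ (p (Fin.ofNat (k + 2) (i + 1)))
    rw [e]
    exact hconn _
  · have e : (Fin.ofNat (k + 2) 0) = Fin.ofNat (k + 2) (k + 1) + 1 := by
      apply Fin.ext
      simp [Fin.ofNat, Fin.val_add]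
    show Conn F _ _ (p (Fin.ofNat (k + 2) 0))
    rw [e]
    exact hconn _

end nc

end Pool.Agent.Y504.CO
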