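import Pool.Agent.H66.L.S8.Y504.CO.Stm5
import Pool.Agent.H66.L.S8.Y417.CO.MH

/-!
A transverse homoclinic orbit gives a nonperiodic recurrent point; adapted from helper417's
`Pool/Agent/Y417/CO/MH.lean`.
-/

set_option autoImplicit false

open scoped Manifold ContDiff Topology
open Filter Set Metric

universe u

namespace Pool.Agent.Y504.CO.K7

open Pool.Agent.H718R2.G Pool.Agent.TH80.OMS Pool.Agent.Y504.CO Pool.Agent.Y417.CO.MH

theorem main (hHS : Pool.Agent.Y504.CO.S_HS) (hT : Pool.Agent.Y504.CO.S_K6.{u}) :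
    Pool.Agent.Y504.CO.S_K7.{u} := by
  classical
  intro n N _ _ _ g hg ψ m L ζ h
  have hgm : Continuous (g^[m]) := hg.iterate m
  have hgL : Continuous (g^[L]) := hg.iterate L
  have hop : ∀ k : ℕ, IsOpen (ψ.target ∩ (fun v => g^[k] (ψ.symm v)) ⁻¹' ψ.source) := fun k =>
    (((hg.iterate k).comp_continuousOn ψ.continuousOn_symm).isOpen_inter_preimage ψ.open_target
      ψ.open_source)
  obtain ⟨ε1, hε1, he0, heζ⟩ := unif h.data.top h.data.bot (hop m)
    ⟨h.zero_mem, by
      show g^[m] (ψ.symm 0) ∈ ψ.source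
      rw [h.per]
      exact ψ.map_target h.zero_mem⟩
    (fun i hi => ⟨h.mem i, by
      show g^[m] (ψ.symm (ζ i)) ∈ ψ.source
      rw [h.step i hi]
      exact ψ.map_target (h.mem _)⟩)
  obtain ⟨ε2, hε2, he2⟩ : ∃ ε2 : ℝ, 0 < ε2 ∧ ∀ x, ‖x - ζ 0‖ ≤ ε2 →
      x ∈ ψ.target ∩ (fun v => g^[L] (ψ.symm v)) ⁻¹' ψ.source := by
    have h1 : ψ.target ∩ (fun v => g^[L] (ψ.symm v)) ⁻¹' ψ.source ∈ 𝓝 (ζ 0) :=
      (hop L).mem_nhds ⟨h.mem 0, by
        show g^[L] (ψ.symm (ζ 0)) ∈ ψ.source
        rw [h.jump]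
        exact ψ.map_target (h.mem _)⟩
    obtain ⟨ε2, hε2, hsub⟩ := nhds_basis_closedBall.mem_iff.1 h1
    exact ⟨ε2, hε2, fun x hx => hsub (by rwa [mem_closedBall, dist_eq_norm])⟩
  have hz0 : 0 < ‖ζ 0‖ := norm_pos_iff.2 h.ne
  obtain ⟨ε, hε⟩ : ∃ ε : ℝ, ε = min (min ε1 ε2) (‖ζ 0‖ / 3) := ⟨_, rfl⟩
  have hεpos : 0 < ε := by rw [hε]; positivity
  have hεle1 : ε ≤ ε1 := by rw [hε]; exact (min_le_left _ _).trans (min_le_left _ _)
  have hεle2 : ε ≤ ε2 := by rw [hε]; exact (min_le_left _ _).trans (min_le_right _ _)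
  have hεle3 : ε ≤ ‖ζ 0‖ / 3 := by rw [hε]; exact min_le_right _ _
  obtain ⟨M, hM1, hM⟩ := hHS (V n) _ _ ζ h.data ε hεpos
  -- the compact sets
  let K : Bool → Set N := fun b => ψ.symm '' closedBall (if b = true then ζ 0 else 0) ε
  have hballT : closedBall (ζ 0) ε ⊆ ψ.target := fun x hx =>
    (he2 x (by rw [mem_closedBall, dist_eq_norm] at hx; exact hx.trans hεle2)).1
  have hball0 : closedBall (0 : V n) ε ⊆ ψ.target := fun x hx =>
    (he0 x (by rw [mem_closedBall, dist_zero_right] at hx; exact hx.trans hεle1)).1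
  have hKc : ∀ b, IsClosed (K b) := by
    intro b
    refine IsCompact.isClosed (IsCompact.image_of_continuousOn (isCompact_closedBall _ _) ?_)
    refine ψ.continuousOn_symm.mono ?_
    cases b
    · simpa using hball0
    · simpa using hballT
  have hKd : Disjoint (K true) (K false) := by
    rw [Set.disjoint_left]
    rintro _ ⟨a, ha, rfl⟩ ⟨b, hb, hab⟩
    simp only [if_true] at ha
    simp only [Bool.false_eq_true, if_false] at hb
    have h1 : b = a := ψ.symm.injOn (hball0 hb) (hballT ha) hab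
    rw [h1, mem_closedBall, dist_zero_right] at hb
    rw [mem_closedBall, dist_eq_norm] at ha
    have h2 : ‖ζ 0‖ ≤ ‖a‖ + ‖a - ζ 0‖ := by
      have := norm_sub_le a (a - ζ 0)
      rwa [sub_sub_cancel] at this
    linarith
  have hM1' : ∀ b : Bool, 1 ≤ (if b = true then L else m) + 2 * M * m := by
    intro b
    have h1 : 1 ≤ M * m := Nat.mul_pos hM1 h.m1
    have h2 : 1 ≤ 2 * M * m := by
      rw [mul_assoc]
      omega
    exact h2.trans (Nat.le_add_left _ _)
  refine hT N g hg K hKc hKd (fun b => (if b = true then L else m) + 2 * M * m) hM1' ?_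
  intro q σ
  rcases Nat.eq_zero_or_pos q with rfl | hq
  · exact ⟨ψ.symm 0, ⟨m, h.m1, h.per⟩, fun j hj => absurd hj (by omega)⟩
  have hqne : (q : ℤ) ≠ 0 := by exact_mod_cast hq.ne'
  let σ' : ℤ → Bool := fun j => σ (j % q).toNat
  have hσ' : ∀ j, σ' (j + q) = σ' j := fun j => by simp [σ']
  obtain ⟨x, hx1, hx2, hx3⟩ := hM q σ' hq hσ'
  obtain ⟨P, hP⟩ : ∃ P : ℤ, P = 2 * (M : ℤ) + 1 := ⟨_, rfl⟩
  rw [← hP] at hx1 hx2 hx3
  have hPpos : 0 < P := by omega
  let Y : ℤ → N := fun i => ψ.symm (x i)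
  -- steps
  have hstepL : ∀ i, σ' (i / P) = true → i % P = M → g^[L] (Y i) = Y (i + 1) := by
    intro i h1 h2
    have h3 := hx2 i
    rw [if_pos ⟨h1, h2⟩] at h3
    have h4 := hx3 i
    rw [if_pos h1, h2, sub_self] at h4
    have h5 := (he2 (x i) (h4.trans hεle2)).2
    show g^[L] (ψ.symm (x i)) = ψ.symm (x (i + 1))
    rw [h3]
    exact (ψ.left_inv h5).symm
  have hstepm : ∀ i, ¬ (σ' (i / P) = true ∧ i % P = M) → g^[m] (Y i) = Y (i + 1) := by
    intro i h1
    have h3 := hx2 i
    rw [if_neg h1] at h3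
    have h4 := hx3 i
    have h5 : x i ∈ ψ.target ∩ (fun v => g^[m] (ψ.symm v)) ⁻¹' ψ.source := by
      by_cases h2 : σ' (i / P) = true
      · rw [if_pos h2] at h4
        refine heζ (i % P - M) ?_ _ (h4.trans hεle1)
        intro h6
        exact h1 ⟨h2, by omega⟩
      · rw [if_neg h2, sub_zero] at h4
        exact he0 _ (h4.trans hεle1)
    show g^[m] (ψ.symm (x i)) = ψ.symm (x (i + 1))
    rw [h3]
    exact (ψ.left_inv h5.2).symm
  have hdiv : ∀ j : ℤ, (j * P + M) / P = j := by
    intro j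
    rw [Int.add_comm, Int.add_mul_ediv_right _ _ hPpos.ne', Int.ediv_eq_zero_of_lt (by omega)
      (by omega), zero_add]
  have hmod : ∀ j : ℤ, (j * P + M) % P = M := by
    intro j
    rw [Int.add_comm, Int.add_mul_emod_self_right, Int.emod_eq_of_lt (by omega) (by omega)]
  have hmod' : ∀ (j : ℤ) (k : ℕ), k < 2 * M → (j * P + M + 1 + k) % P ≠ M := by
    intro j k hk h1
    have h2 : (P : ℤ) ∣ (j * P + M + 1 + k) - M := by
      have := Int.dvd_self_sub_of_emod_eq h1
      exact this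
    have h3 : (P : ℤ) ∣ 1 + k := by
      have h4 : (j * P + M + 1 + k) - M = j * P + (1 + k) := by ring
      rw [h4] at h2
      exact (Int.dvd_add_right (Dvd.intro_left j rfl)).1 h2
    have h5 := Int.le_of_dvd (by omega) h3
    omega
  have hblock : ∀ j : ℤ, g^[(if σ' j = true then L else m) + 2 * M * m] (Y (j * P + M)) =
      Y ((j + 1) * P + M) := by
    intro j
    have h1 : g^[if σ' j = true then L else m] (Y (j * P + M)) = Y (j * P + M + 1) := by
      split_ifs with hj
      · exact hstepL _ (by rwa [hdiv]) (hmod j)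
      · refine hstepm _ fun h2 => hj ?_
        rw [hdiv] at h2
        exact h2.1
    have h2 : ∀ k : ℕ, k ≤ 2 * M → g^[k * m] (Y (j * P + M + 1)) = Y (j * P + M + 1 + k) := by
      intro k
      induction k with
      | zero => intro _; simp
      | succ k ih =>
        intro hk
        rw [Nat.succ_mul, Nat.add_comm, Function.iterate_add_apply, ih (by omega),
          hstepm _ fun h3 => hmod' j k (by omega) h3.2]
        congr 1
        push_cast
        ring
    rw [Nat.add_comm, Function.iterate_add_apply, h1, h2 _ le_rfl]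
    congr 1
    rw [hP]
    push_cast
    ring
  have hsum : ∀ j : ℕ, j ≤ q → g^[∑ i ∈ Finset.range j,
      ((if σ i = true then L else m) + 2 * M * m)] (Y M) = Y (j * P + M) := by
    intro j
    induction j with
    | zero => intro _; simp
    | succ j ih =>
      intro hj
      rw [Finset.sum_range_succ, Nat.add_comm, Function.iterate_add_apply, ih (by omega)]
      have h1 : σ' (j : ℤ) = σ j := by
        simp only [σ']
        congr 1
        rw [Int.emod_eq_of_lt (by omega) (by omega)]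
        rfl
      have h2 := hblock (j : ℤ)
      rw [h1] at h2
      rw [h2]
      congr 1
  refine ⟨Y M, ⟨∑ i ∈ Finset.range q, ((if σ i = true then L else m) + 2 * M * m), ?_, ?_⟩, ?_⟩
  · have h1 : 1 ≤ M * m := Nat.mul_pos hM1 h.m1
    have h2 : 1 ≤ 2 * M * m := by
      rw [mul_assoc]
      omega
    calc 1 ≤ (if σ 0 = true then L else m) + 2 * M * m := h2.trans (Nat.le_add_left _ _)
      _ ≤ _ := Finset.single_le_sum (f := fun i => (if σ i = true then L else m) + 2 * M * m)
        (fun i _ => Nat.zero_le _) (Finset.mem_range.2 hq)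
  · rw [hsum q le_rfl]
    show ψ.symm _ = ψ.symm _
    congr 1
    have := hx1 M
    rw [add_comm] at this
    exact this
  · intro j hj
    rw [hsum j hj.le]
    have h1 : σ' (j : ℤ) = σ j := by
      simp only [σ']
      congr 1
      rw [Int.emod_eq_of_lt (by omega) (by omega)]
      rfl
    have h2 := hx3 (j * P + M)
    rw [hdiv, hmod, sub_self, h1] at h2
    refine ⟨_, ?_, rfl⟩
    rw [mem_closedBall, dist_eq_norm]
    exact h2

end Pool.Agent.Y504.CO.K7
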