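import Pool.Agent.H66.L.S8.Y504.CO.Stm4
import Pool.Agent.H66.L.S8.Y929.CO.NC

/-!
No cycles, second version; adapted from helper929's `Pool/Agent/Y929/CO/NC.lean`.
-/

set_option autoImplicit false
set_option linter.unusedSectionVars false
set_option linter.unusedVariables false

open scoped Manifold ContDiff Topology
open Filter Set Metric

universe u

namespace Pool.Agent.Y504.CO.NC2

open Pool.Agent.H718R2.G Pool.Agent.TH80.OMS Pool.Agent.Y504.CO Pool.Agent.Y929.CO

section dyn

variable {X : Type u} {f : X → X} [TopologicalSpace X] [T2Space X]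

/-- one step: the map is changed near two points -/
lemma dat_step2 {k : ℕ} {p : ℕ → X} {x : ℕ → ℤ → X} (D : Dat f (k + 1) p x)
    (hf : Function.Injective f) {g : X → X} (hg : ∀ y ∈ CC f (k + 1) p x, g y = f y) {m : ℕ}
    (hm : g^[m + 1] (x 0 0) = x 1 1) :
    ∃ x', Dat g k (fun i => if i = 0 then p 0 else p (i + 1)) x' := by
  -- the orbits which do not change
  have horb : ∀ l ≤ k + 1, ∀ j : ℕ, g^[j] (p l) = f^[j] (p l) := by
    intro l hl j
    induction j with
    | zero => rfl
    | succ j ih =>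
      rw [Function.iterate_succ_apply', Function.iterate_succ_apply', ih]
      exact hg _ (orb_cc D hl ⟨j, rfl⟩)
  have horb2 : ∀ l ≤ k + 1, orb g (p l) = orb f (p l) := by
    intro l hl
    unfold orb
    congr 1
    funext j
    exact horb l hl j
  have hper : ∀ l ≤ k + 1, p l ∈ Per g := by
    intro l hl
    obtain ⟨m, hm, hmp⟩ := D.per l hl
    exact ⟨m, hm, by rw [horb l hl, hmp]⟩
  -- the new orbit
  obtain ⟨y, hy⟩ : ∃ y : ℤ → X, y = fun j => if j ≤ 0 then x 0 j else g^[j.toNat] (x 0 0) :=
    ⟨_, rfl⟩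
  have hy1 : ∀ j, j ≤ 0 → y j = x 0 j := fun j hj => by rw [hy]; exact if_pos hj
  have hy2 : ∀ j, 0 ≤ j → y j = g^[j.toNat] (x 0 0) := by
    intro j hj
    rcases eq_or_lt_of_le hj with h | h
    · rw [← h, hy1 0 le_rfl]
      rfl
    · rw [hy]
      exact if_neg (by omega)
  have hyf : ∀ j, g (y j) = y (j + 1) := by
    intro j
    rcases lt_or_ge j 0 with h | h
    · rw [hy1 j h.le, hy1 (j + 1) (by omega), hg _ (img_cc D (by omega) (Or.inr h.ne)),
        D.full 0 (by omega)]
    · rw [hy2 j h, hy2 (j + 1) (by omega)]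
      have e : (j + 1).toNat = j.toNat + 1 := by omega
      rw [e, Function.iterate_succ_apply']
  have hfar : ∀ n : ℕ, g^[n + (m + 1)] (x 0 0) = x 1 (n + 1) := by
    intro n
    induction n with
    | zero => rw [zero_add, hm]; simp
    | succ n ih =>
      have e : n + 1 + (m + 1) = (n + (m + 1)) + 1 := by ring
      rw [e, Function.iterate_succ_apply', ih, hg _ (img_cc D (by omega) (Or.inr (by omega))),
        D.full 1 (by omega)]
      congr 1
  have hytop : ∀ j : ℤ, (m : ℤ) + 1 ≤ j → y j = x 1 (j - m) := by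
    intro j hj
    rw [hy2 j (by omega)]
    have e : j.toNat = (j - m - 1).toNat + (m + 1) := by omega
    rw [e, hfar]
    congr 1
    omega
  refine ⟨fun i => if i = 0 then y else x (i + 1), ?_, ?_, ?_, ?_, ?_, ?_⟩
  · intro i hi
    split_ifs with h
    · exact hper 0 (by omega)
    · exact hper (i + 1) (by omega)
  · intro i hi j hj hij
    split_ifs with h h' h'
    · omega
    · rw [horb2 0 (by omega), horb2 (j + 1) (by omega)]
      exact D.dis _ (by omega) _ (by omega) (by omega)
    · rw [horb2 0 (by omega), horb2 (i + 1) (by omega)]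
      exact D.dis _ (by omega) _ (by omega) (by omega)
    · rw [horb2 (i + 1) (by omega), horb2 (j + 1) (by omega)]
      exact D.dis _ (by omega) _ (by omega) (by omega)
  · intro i hi j
    split_ifs with h
    · exact hyf j
    · rw [hg _ (img_cc D (by omega) (Or.inl (by omega))), D.full (i + 1) (by omega)]
  · intro i hi O hO hpO
    beta_reduce at hpO ⊢
    split_ifs with h
    · rw [if_pos h, horb2 0 (by omega)] at hpO
      filter_upwards [D.bot 0 (by omega) O hO hpO, eventually_le_atBot (0 : ℤ)] with j hj hj0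
      rw [hy1 j hj0]
      exact hj
    · rw [if_neg h, horb2 (i + 1) (by omega)] at hpO
      exact D.bot (i + 1) (by omega) O hO hpO
  · intro i hi O hO hpO
    beta_reduce at hpO ⊢
    split_ifs with h
    · subst h
      have hpO' : orb f (p (nx (k + 1) 1)) ⊆ O := by
        rw [← horb2 _ nx_le]
        refine Eq.trans_subset ?_ hpO
        congr 1
        unfold nx
        by_cases hk : 0 < k
        · rw [if_pos hk, if_pos (by omega : 1 < k + 1), if_neg (by omega)]
        · rw [if_neg hk, if_neg (by omega : ¬ 1 < k + 1), if_pos rfl]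
      obtain ⟨A, hA⟩ := eventually_atTop.1 (D.top 1 (by omega) O hO hpO')
      rw [eventually_atTop]
      refine ⟨max (A + m) (m + 1), fun j hj => ?_⟩
      rw [hytop j (by omega)]
      exact hA _ (by omega)
    · have hpO' : orb f (p (nx (k + 1) (i + 1))) ⊆ O := by
        rw [← horb2 _ nx_le]
        refine Eq.trans_subset ?_ hpO
        congr 1
        unfold nx
        by_cases hk : i < k
        · rw [if_pos hk, if_pos (by omega : i + 1 < k + 1), if_neg (by omega)]
        · rw [if_neg hk, if_neg (by omega : ¬ i + 1 < k + 1), if_pos rfl]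
      exact D.top (i + 1) (by omega) O hO hpO'
  · intro i hi
    split_ifs with h
    · rw [horb2 0 (by omega), hy1 0 le_rfl]
      exact D.off 0 (by omega)
    · rw [horb2 (i + 1) (by omega)]
      exact D.off (i + 1) (by omega)

end dyn

theorem main (hP : S_P2.{u}) (hL : S_LINK.{u}) : S_NC2.{u} := by
  intro n N _ _ _ _ _ r hr U hU hnh
  suffices h : ∀ k : ℕ, ∀ g ∈ U, ∀ (p : ℕ → N) (x : ℕ → ℤ → N), (∀ i ≤ k, HypAt n g (p i)) →
      ¬ Dat g k p x by
    intro g hg hyp k hc
    obtain ⟨p, x, D⟩ := cyc_dat hc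
    exact h k g hg p x (fun i hi => hyp _ (D.per i hi)) D
  intro k
  induction k with
  | zero =>
    intro g hg p x hyp D
    obtain ⟨p, z, hper, hdis, hc, hk⟩ : ∃ q z : ℕ → N, (∀ i ≤ 0, q i ∈ Per g) ∧ q 0 = p 0 ∧
        (∀ i < 0, Conn g (z i) (q i) (q (i + 1))) ∧ Conn g (z 0) (q 0) (q 0) := by
      refine ⟨p, fun i => x i 0, D.per, rfl, fun i hi => by omega, ?_⟩
      refine ⟨D.off 0 le_rfl, dat_off D g.injective le_rfl 0 le_rfl,
        ⟨x 0, D.full 0 le_rfl, rfl, D.bot 0 le_rfl⟩, ?_⟩
      intro O hO hpO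
      have e : nx 0 0 = 0 := by unfold nx; rfl
      obtain ⟨A, hA⟩ := eventually_atTop.1 (D.top 0 le_rfl O hO (by rw [e]; exact hpO))
      rw [eventually_atTop]
      refine ⟨A.toNat, fun j hj => ?_⟩
      rw [full_nat (D.full 0 le_rfl), zero_add]
      exact hA j (by omega)
    refine hnh g hg (p 0) (z 0) ?_ ⟨hper 0 le_rfl, hk.1, hk.2.2.1, hk.2.2.2⟩
    rw [hdis]
    exact hyp 0 le_rfl
  | succ k ih =>
    intro g hg p x hyp D
    have hgi : Function.Injective g := g.injective
    have hC := cc_closed D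
    have h0 := not_cc D hgi (i := 0) (by omega) (by omega)
    have h1 := not_cc D hgi (i := 1) (by omega) (by omega)
    have h01 : x 0 0 ≠ x 1 0 := ne_of_disjoint hgi (D.full 0 (by omega)) (D.full 1 (by omega))
      (D.per 0 (by omega)) (D.per 1 (by omega)) (D.bot 0 (by omega)) (D.bot 1 (by omega))
      (D.dis 0 (by omega) 1 (by omega) (by omega)) 0 0
    -- neighbourhoods
    obtain ⟨A, B, hA, hB, hzA, hzB, hAB⟩ := t2_separation h01
    obtain ⟨t0, ht0, ht0c, ht0s⟩ := exists_mem_nhds_isClosed_subset
      (Filter.inter_mem (hC.isOpen_compl.mem_nhds h0) (hA.mem_nhds hzA))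
    obtain ⟨t1, ht1, ht1c, ht1s⟩ := exists_mem_nhds_isClosed_subset
      (Filter.inter_mem (hC.isOpen_compl.mem_nhds h1) (hB.mem_nhds hzB))
    have hCO : CC g (k + 1) p x ⊆ (t0 ∪ t1)ᶜ := by
      rintro y hy (h | h)
      · exact (ht0s h).1 hy
      · exact (ht1s h).1 hy
    obtain ⟨W, hW, W', hW', hPW⟩ := hP n N r hr g U hU hg (x 0 0) (x 1 0) (interior t0)
      (interior t1) isOpen_interior isOpen_interior (mem_interior_iff_mem_nhds.2 ht0)
      (mem_interior_iff_mem_nhds.2 ht1) (by
        rw [Set.disjoint_left]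
        intro y hy hy'
        exact Set.disjoint_left.1 hAB (ht0s (interior_subset hy)).2 (ht1s (interior_subset hy')).2)
    have hcn : OmegaTo g (x 0 0) (p 1) := by
      intro O hO hpO
      have e : nx (k + 1) 0 = 1 := by
        unfold nx
        rw [if_pos (by omega)]
      obtain ⟨M, hM⟩ := eventually_atTop.1 (D.top 0 (by omega) O hO (by rw [e]; exact hpO))
      rw [eventually_atTop]
      refine ⟨M.toNat, fun j hj => ?_⟩
      rw [full_nat (D.full 0 (by omega)), zero_add]
      exact hM j (by omega)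
    obtain ⟨s', hs', m, hm, hms, hmid⟩ := hL n N r hr g (p 1) (D.per 1 (by omega))
      (hyp 1 (by omega)) (x 0 0) (x 1) hcn
      (dat_off D hgi (by omega) 0 (by omega)) (D.full 1 (by omega)) (D.bot 1 (by omega))
      (D.off 1 (by omega)) (t0 ∪ t1)ᶜ (ht0c.union ht1c).isOpen_compl
      ((orb_cc D (by omega)).trans hCO) (by
        intro i hi
        rw [full_nat (D.full 0 (by omega)), zero_add]
        exact hCO (img_cc D (by omega) (Or.inr (by omega)))) (by
        intro i hi
        exact hCO (img_cc D (by omega) (Or.inr (by omega)))) W hW W' hW'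
    obtain ⟨Φ, g', hg'U, hg', hΦ1, hΦ2, hΦ3⟩ := hPW s' hs' _ hms
    have hΦC : ∀ y ∈ (t0 ∪ t1)ᶜ, Φ y = y := by
      intro y hy
      exact hΦ3 y (fun h => hy (Or.inl (interior_subset h)))
        (fun h => hy (Or.inr (interior_subset h)))
    -- the new orbit
    have hnew : ∀ i : ℕ, i < m → g'^[i + 1] (x 0 0) = g^[i + 1] s' := by
      intro i
      induction i with
      | zero =>
        intro _
        show g' (x 0 0) = g s'
        rw [hg', hΦ1]
      | succ i ih2 =>
        intro hi
        rw [Function.iterate_succ_apply', ih2 (by omega), hg', hΦC _ (hmid (i + 1) (by omega) hi),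
          Function.iterate_succ_apply' g (i + 1)]
    have hlast : g'^[m + 1] (x 0 0) = x 1 1 := by
      have h2 := hnew (m - 1) (by omega)
      have e : m - 1 + 1 = m := by omega
      rw [e] at h2
      rw [Function.iterate_succ_apply', h2, hg', hΦ2, D.full 1 (by omega)]
      rfl
    obtain ⟨x', D'⟩ := dat_step2 D hgi (g := g') (fun y hy => by rw [hg', hΦC y (hCO hy)])
      hlast
    refine ih g' hg'U _ x' (fun i hi => ?_) D'
    have hcg : ∀ l ≤ k + 1, HypAt n g' (p l) := fun l hl =>
      hypAt_congr g.continuous (ht0c.union ht1c).isOpen_compl ((orb_cc D hl).trans hCO)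
        (fun y hy => by rw [hg', hΦC y hy]) (hyp l hl)
    show HypAt n g' (if i = 0 then p 0 else p (i + 1))
    split_ifs with h
    · exact hcg 0 (by omega)
    · exact hcg (i + 1) (by omega)

end Pool.Agent.Y504.CO.NC2
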