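import Pool.Agent.H66.L.S8.Y504.CO.Rob
import Pool.Agent.H66.L.S8.Y504.CO.Fin
import Pool.Agent.H66.L.S8.Y504.CO.LF
import Pool.Agent.H66.L.S8.Y504.CO.P2
import Pool.Agent.H66.L.S8.Y504.CO.NC2
import Pool.Agent.H66.L.S8.Y504.CO.TR2
import Pool.Agent.H66.L.S8.Y504.CO.K7
import Pool.Agent.H66.L.S8.Y832.CO.LB
import Pool.Agent.H66.L.S8.Y832.CO.LIN
import Pool.Agent.H66.L.S8.Y832.CO.ALG
import Pool.Agent.H66.L.S8.Y832.CO.LP
import Pool.Agent.H66.L.S8.Y117.CO.NW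
import Pool.Agent.H66.L.S8.Y614.CO.HS
import Pool.Agent.H66.L.S8.Y38.CO.GEN
import Pool.Agent.H66.L.S8.Y38.CO.EIG
import Pool.Agent.H66.L.S8.Y286.CO.DIM
import Pool.Agent.H66.L.S8.Y286.CO.ISO
import Pool.Agent.H66.L.S8.Y329.CO.BIF
import Pool.Agent.H66.L.S8.Y96.CO.T0
import Pool.Agent.H66.L.S8.Y504.CO.F2c
import Pool.Agent.H66.L.S8.Y417.CO.TRK
import Pool.Agent.H66.L.S8.Y863.CO.TR
import Pool.Agent.H66.L.S8.Y863.CO.LINK
import Pool.Agent.H66.L.S8.Y333.CO.K6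
import Pool.Agent.H66.L.S8.Y948.CO.K5
import Pool.Agent.H66.L.S8.Y987.CO.K3

/-!
# Diffeomorphisms all of whose recurrent points are periodic: the parts put together
-/

set_option autoImplicit false
set_option linter.unusedSectionVars false

open scoped Manifold ContDiff Topology
open Filter Set Metric

universe u

namespace Pool.Agent.Y504.CO.Plug

open Pool.Agent.H718R2.G Pool.Agent.TH80.OMS Pool.Agent.Y504.CO

theorem hLB : S_LB := Pool.Agent.Y832.CO.LB.main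
theorem hNW : S_NW := Pool.Agent.Y117.CO.NW.main
theorem hHS : S_HS := Pool.Agent.Y614.CO.HS.main hLB hNW
theorem hGEN : S_GEN := Pool.Agent.Y38.CO.GEN.main
theorem hDIM : S_DIM := Pool.Agent.Y286.CO.DIM.main
theorem hLIN : S_LIN := Pool.Agent.Y832.CO.LIN.main hGEN hDIM
theorem hEIG : S_EIG := Pool.Agent.Y38.CO.EIG.main
theorem hALG : S_ALG := Pool.Agent.Y832.CO.ALG.main
theorem hBIF : S_BIF := Pool.Agent.Y329.CO.BIF.main hNW
theorem hT0 : S_T0.{u} := Pool.Agent.Y96.CO.T0.main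
theorem hTRK : S_TRK.{u} := Pool.Agent.Y417.CO.TRK.main
theorem hLP : S_LP.{u} := Pool.Agent.Y832.CO.LP.main Pool.Agent.Y504.CO.LF.main
theorem hP2 : S_P2.{u} := Pool.Agent.Y504.CO.P2.main
theorem hISO : S_ISO.{u} := Pool.Agent.Y286.CO.ISO.main hLB
theorem hF2 : S_F2.{u} := Pool.Agent.Y504.CO.F2c.main hEIG hALG hBIF hLP
theorem hTR2 : S_TR2.{u} := Pool.Agent.Y504.CO.TR2.main hLIN hLP hTRK
theorem hLINK : S_LINK.{u} := Pool.Agent.Y863.CO.Link.main hHS hLIN hTRK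
theorem hNC2 : S_NC2.{u} := Pool.Agent.Y504.CO.NC2.main hP2 hLINK
theorem hK3 : S_K3.{u} := Pool.Agent.Y987.CO.K3.main hT0
theorem hK5 : S_K5.{u} := Pool.Agent.Y948.CO.K5.main
theorem hK6 : S_K6.{u} := Pool.Agent.Y333.CO.main
theorem hK7 : S_K7.{u} := Pool.Agent.Y504.CO.K7.main hHS hK6

section

variable {n : ℕ} {N : Type u} [TopologicalSpace N] [T2Space N] [CompactSpace N]
  [ChartedSpace (V n) N] [IsManifold (𝓡 n) ∞ N]

/-- Robust absence of nonperiodic recurrent points. -/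
theorem robust_main' (hK1 : S_K1.{u}) (hK2 : S_K2.{u}) (hK4 : S_K4.{u}) {r : ℕ∞} (hr : 1 ≤ r)
    {F : DiffM n N r} (U : Set (DiffM n N r)) (hU : IsOpen[strongTop n N r] U)
    (hR : ∀ g ∈ U, Rec g ⊆ Per g) (hFU : F ∈ U) (hH : ∀ p ∈ Per F, HypAt n F p) :
    (Omega F).Finite ∧ Omega F ⊆ Per F ∧ (∀ p ∈ Per F, HypAt n F p) ∧ ∀ k, ¬ Cyc F k :=
  rob hK1 hK2 hK3 hK4 hK5 hK7 hISO hTR2 hNC2 hr U hU hR hFU hH

/-- `Ω`-stable, and all recurrent points are periodic. -/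
theorem rec_main' (hK1 : S_K1.{u}) (hK2 : S_K2.{u}) (hK4 : S_K4.{u}) {r : ℕ∞} (hr : 1 ≤ r)
    {F : DiffM n N r} (hF : OmegaStable n N r F) (hR : Rec F ⊆ Per F) :
    (Omega F).Finite ∧ Omega F ⊆ Per F ∧ (∀ p ∈ Per F, HypAt n F p) ∧ ∀ k, ¬ Cyc F k :=
  recm hK1 hK2 hK3 hK4 hK5 hK7 hISO hTR2 hNC2 hF2 hr hF hR

/-- From `HypAt` to eigenvalues. -/
theorem hyp_charpoly {r : ℕ∞} (hr : 1 ≤ r) (F : DiffM n N r) {p : N} (hp : p ∈ Per F)
    (h : HypAt n F p) : IsHyperbolicPer n F p := by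
  refine ⟨hp, fun m hm hmp ψ hψ hpψ => ?_⟩
  have h1 : ContDiffAt ℝ 1 (fun v => ψ (F^[m] (ψ.symm v))) (ψ p) :=
    Pool.Agent.Y863.CO.cda hr F m hψ hpψ (by rw [hmp]; exact hpψ)
  refine ⟨fderiv ℝ (fun v => ψ (F^[m] (ψ.symm v))) (ψ p),
    (h1.differentiableAt one_ne_zero).hasFDerivAt, fun μ hμ hμ1 => ?_⟩
  exact (hEIG n _).2 ⟨μ, hμ1, hμ⟩ (h m hm hmp ψ hψ hpψ)

end

end Pool.Agent.Y504.CO.Plug
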