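import Pool.Agent.H66.L.S8.Y504.CO.Final
import Pool.Agent.H66.L.S8.Y504.CO.Bad
import Pool.Agent.H66.L.S8.Y504.CO.SS
import Pool.Agent.H66.L.S8.Y504.CO.RC
import Pool.Agent.H66.L.S8.Y504.CO.Eig2

/-!
# `Ω`-stable diffeomorphisms with countably many nonperiodic recurrent points: final forms
-/

set_option autoImplicit false
set_option linter.unusedSectionVars false

open scoped Manifold ContDiff Topology
open Filter Set Metric

universe u

namespace Pool.Agent.Y504.CO.Gen

open Pool.Agent.H718R2.G Pool.Agent.TH80.OMS Pool.Agent.Y504.CO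

variable {n : ℕ} {N : Type u} [TopologicalSpace N] [T2Space N] [CompactSpace N]
  [ChartedSpace (V n) N] [IsManifold (𝓡 n) ∞ N]

theorem rec_per {r : ℕ∞} (F : DiffM n N r) (hc : (Rec F \ Per F).Countable) : Rec F ⊆ Per F := by
  have := exists_metric n N
  exact RC.main F F.continuous F.injective hc

/-- Countably many nonperiodic recurrent points, for all maps near `F`. -/
theorem robust {r : ℕ∞} (hr : 1 ≤ r) {F : DiffM n N r} (U : Set (DiffM n N r))
    (hU : IsOpen[strongTop n N r] U) (hR : ∀ g ∈ U, (Rec g \ Per g).Countable) (hFU : F ∈ U)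
    (hH : ∀ p ∈ Per F, IsHyperbolicPer n F p) :
    FiniteNoCycle F ∧ ∀ p ∈ Omega F, IsHyperbolicPer n F p := by
  obtain ⟨h1, h2, h3, h4⟩ := Final.robust_main hr U hU (fun g hg => rec_per g (hR g hg)) hFU
    (fun p hp => Eig2.hypAt_of (hH p hp))
  exact ⟨finiteNoCycle F h1 h4, fun p hp => hH p (h2 hp)⟩

theorem stable {r : ℕ∞} (hr : 1 ≤ r) {F : DiffM n N r} (hF : OmegaStable n N r F)
    (hR : (Rec F \ Per F).Countable) :
    FiniteNoCycle F ∧ ∀ p ∈ Omega F, IsHyperbolicPer n F p := by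
  obtain ⟨h1, h2, h3, h4⟩ := Final.rec_main hr hF (rec_per F hR)
  exact ⟨finiteNoCycle F h1 h4, fun p hp => Plug.hyp_charpoly hr F (h2 hp) (h3 p (h2 hp))⟩

theorem stable_hyp {r : ℕ∞} (hr : 1 ≤ r) {F : DiffM n N r} (hF : OmegaStable n N r F) :
    ∀ p ∈ Per F, IsHyperbolicPer n F p :=
  fun p hp => Plug.hyp_charpoly hr F hp ((Final.isolated_main hr hF).1 p hp)

theorem stable_bad {r : ℕ∞} (hr : 1 ≤ r) {F : DiffM n N r} (hF : OmegaStable n N r F)
    (O : Set N) (hO : IsOpen O) (hne : (O ∩ (Omega F \ closure (Per F))).Nonempty) :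
    ¬ (O ∩ (Omega F \ closure (Per F))).Countable := by
  intro hc
  obtain ⟨z, hz, hzC, -, W, hW, hzW, h⟩ := Bad.exists_isolated (Cnt.omega_closed F)
    isClosed_closure hO hne hc
  exact hzC (subset_closure ((Final.isolated_main hr hF).2 z hz ⟨W, hW, hzW, h⟩))

end Pool.Agent.Y504.CO.Gen
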