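import Pool.Agent.H66.L.S8.Y504.CO.Plug
import Pool.Agent.H66.L.S8.Y504.CO.Cnt
import Pool.Agent.H66.L.S8.Y504.CO.C2
import Pool.Agent.H66.L.S8.Y306.CO.C1
import Pool.Agent.H66.L.S8.Y739.CO.C0
import Pool.Agent.H66.L.S8.Y810.CO.K1
import Pool.Agent.H66.L.S8.Y67.CO.K2
import Pool.Agent.H66.L.S8.Y921.CO.K4

/-!
# `Ω`-stable diffeomorphisms all of whose recurrent points are periodic
-/

set_option autoImplicit false
set_option linter.unusedSectionVars false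

open scoped Manifold ContDiff Topology
open Filter Set Metric

universe u

namespace Pool.Agent.Y504.CO.Final

open Pool.Agent.H718R2.G Pool.Agent.TH80.OMS Pool.Agent.Y504.CO Pool.Agent.Y504.CO.Plug

theorem hK1 : S_K1.{u} := Pool.Agent.Y810.CO.K1.main hT0
theorem hK2 : S_K2.{u} := Pool.Agent.Y67.CO.K2.main hT0
theorem hK4 : S_K4.{u} := Pool.Agent.Y921.CO.K4.main hT0
theorem hC0 : S_C0.{u} := Pool.Agent.Y739.CO.C0.main
theorem hC1 : S_C1.{u} := Pool.Agent.Y306.CO.C1.main hC0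
theorem hC2 : S_C2.{u} := Pool.Agent.Y504.CO.C2.main hP2 hC1

section

variable {n : ℕ} {N : Type u} [TopologicalSpace N] [T2Space N] [CompactSpace N]
  [ChartedSpace (V n) N] [IsManifold (𝓡 n) ∞ N]

/-- Robust absence of nonperiodic recurrent points. -/
theorem robust_main {r : ℕ∞} (hr : 1 ≤ r) {F : DiffM n N r} (U : Set (DiffM n N r))
    (hU : IsOpen[strongTop n N r] U) (hR : ∀ g ∈ U, Rec g ⊆ Per g) (hFU : F ∈ U)
    (hH : ∀ p ∈ Per F, HypAt n F p) :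
    (Omega F).Finite ∧ Omega F ⊆ Per F ∧ (∀ p ∈ Per F, HypAt n F p) ∧ ∀ k, ¬ Cyc F k :=
  robust_main' hK1 hK2 hK4 hr U hU hR hFU hH

/-- `Ω`-stable, and all recurrent points are periodic. -/
theorem rec_main {r : ℕ∞} (hr : 1 ≤ r) {F : DiffM n N r} (hF : OmegaStable n N r F)
    (hR : Rec F ⊆ Per F) :
    (Omega F).Finite ∧ Omega F ⊆ Per F ∧ (∀ p ∈ Per F, HypAt n F p) ∧ ∀ k, ¬ Cyc F k :=
  rec_main' hK1 hK2 hK4 hr hF hR

theorem rec_of_countable {r : ℕ∞} (F : DiffM n N r) (hc : (Omega F).Countable) :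
    Rec F ⊆ Per F := by
  have := exists_metric n N
  exact Cnt.main F F.continuous F.injective hc

/-- `Ω`-stable, with a countable nonwandering set. -/
theorem countable_main {r : ℕ∞} (hr : 1 ≤ r) {F : DiffM n N r} (hF : OmegaStable n N r F)
    (hc : (Omega F).Countable) :
    (Omega F).Finite ∧ Omega F ⊆ Per F ∧ (∀ p ∈ Per F, HypAt n F p) ∧ ∀ k, ¬ Cyc F k :=
  rec_main hr hF (rec_of_countable F hc)

/-- All periodic points of an `Ω`-stable diffeomorphism are hyperbolic, and the isolated points of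
its nonwandering set are periodic. -/
theorem isolated_main {r : ℕ∞} (hr : 1 ≤ r) {F : DiffM n N r} (hF : OmegaStable n N r F) :
    (∀ p ∈ Per F, HypAt n F p) ∧ ∀ z ∈ Omega F,
      (∃ O : Set N, IsOpen O ∧ z ∈ O ∧ ∀ y ∈ Omega F, y ∈ O → y = z) → z ∈ Per F := by
  obtain ⟨U₁, hU₁, hFU₁, hfin⟩ := finite_per hr hF
  obtain ⟨U₀, hU₀, hFU₀, hconj⟩ := hF
  have hU : IsOpen[strongTop n N r] (U₀ ∩ U₁) := @IsOpen.inter _ (strongTop n N r) _ _ hU₀ hU₁
  have hcard : ∀ g ∈ U₀ ∩ U₁, ∀ g' ∈ U₀ ∩ U₁, ∀ k : ℕ, 1 ≤ k →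
      Set.ncard {x | g^[k] x = x} = Set.ncard {x | g'^[k] x = x} := by
    intro g hg g' hg' k hk
    rw [← ncard_conj F.continuous g.continuous (hconj g hg.1) hk,
      ← ncard_conj F.continuous g'.continuous (hconj g' hg'.1) hk]
  refine ⟨fun p hp => hF2 n N r hr _ hU (fun g hg => hfin g hg.2) hcard F ⟨hFU₀, hFU₁⟩ p hp, ?_⟩
  intro z hz hiso
  exact C2.isolated_per hC2 hr hU (fun g hg => hfin g hg.2) hcard ⟨hFU₀, hFU₁⟩ z hz hiso

end

end Pool.Agent.Y504.CO.Final
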