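import Pool.Agent.H66.L.S8.Y504.CO.Stm4

/-!
# Diffeomorphisms all of whose recurrent points are periodic: statements
-/

set_option autoImplicit false

open scoped Manifold ContDiff Topology
open Filter Set Metric

universe u

namespace Pool.Agent.Y504.CO

open Pool.Agent.H718R2.G Pool.Agent.TH80.OMS

/-- The recurrent points: `x` is a limit of `f^k(x)`, `k ≥ 1`. -/
def Rec {X : Type u} [TopologicalSpace X] (f : X → X) : Set X :=
  {x | ∀ W ∈ 𝓝 x, ∃ k : ℕ, 1 ≤ k ∧ f^[k] x ∈ W}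

/-- K1: existence of minimal limits. -/
def S_K1 : Prop :=
  ∀ (X : Type u) [MetricSpace X] [CompactSpace X] (f : X ≃ₜ X),
    (∀ p ∈ Per f, Isolated f p) → ¬ ((Omega f).Finite ∧ Omega f ⊆ Per f) → ∃ H, MinLim f H

/-- K2: forward orbits in a minimal limit converge to periodic orbits. -/
def S_K2 : Prop :=
  ∀ (X : Type u) [MetricSpace X] [CompactSpace X] (f : X ≃ₜ X),
    (∀ p ∈ Per f, Isolated f p) → Rec f ⊆ Per f → ∀ H : Set X, MinLim f H →
    ∀ y ∈ H, y ∉ Per f → ∃ p ∈ Per f, p ∈ H ∧ OmegaTo f y p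

/-- K3: a minimal limit contains only finitely many periodic points. -/
def S_K3 : Prop :=
  ∀ (X : Type u) [MetricSpace X] [CompactSpace X] (f : X ≃ₜ X),
    (∀ p ∈ Per f, Isolated f p) → ∀ H : Set X, MinLim f H →
    (∀ y ∈ H, y ∉ Per f → ∃ p ∈ Per f, p ∈ H ∧ OmegaTo f y p) → (Per f ∩ H).Finite

/-- K4: every periodic orbit in a minimal limit has an outgoing orbit. -/
def S_K4 : Prop :=
  ∀ (X : Type u) [MetricSpace X] [CompactSpace X] (f : X ≃ₜ X),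
    (∀ p ∈ Per f, Isolated f p) → ∀ H : Set X, MinLim f H →
    ∀ p ∈ Per f, p ∈ H → ∃ w ∈ H, w ∉ orb f p ∧ AlphaTo f w p

/-- K5: a cycle. -/
def S_K5 : Prop :=
  ∀ (X : Type u) [TopologicalSpace X] [T2Space X] (f : X ≃ₜ X) (H : Set X),
    (Per f ∩ H).Finite → (Per f ∩ H).Nonempty →
    (∀ p ∈ Per f, p ∈ H → ∃ w ∈ H, w ∉ orb f p ∧ AlphaTo f w p) →
    (∀ y ∈ H, y ∉ Per f → ∃ p ∈ Per f, p ∈ H ∧ OmegaTo f y p) → ∃ k, Cyc f k

/-- K6: coded periodic orbits give a nonperiodic recurrent point. -/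
def S_K6 : Prop :=
  ∀ (X : Type u) [TopologicalSpace X] [CompactSpace X] [T2Space X] (g : X → X), Continuous g →
    ∀ K : Bool → Set X, (∀ b, IsClosed (K b)) → Disjoint (K true) (K false) → ∀ τ : Bool → ℕ,
    (∀ b, 1 ≤ τ b) →
    (∀ (q : ℕ) (σ : ℕ → Bool), ∃ x ∈ Per g, ∀ j < q,
      g^[∑ i ∈ Finset.range j, τ (σ i)] x ∈ K (σ j)) → ∃ x ∈ Rec g, x ∉ Per g

/-- K7: a transverse homoclinic orbit gives a nonperiodic recurrent point. -/
def S_K7 : Prop :=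
  ∀ (n : ℕ) (N : Type u) [TopologicalSpace N] [T2Space N] [CompactSpace N] (g : N → N),
    Continuous g → ∀ (ψ : OpenPartialHomeomorph N (V n)) (m L : ℕ) (ζ : ℤ → V n),
    HomM g ψ m L ζ → ∃ x ∈ Rec g, x ∉ Per g

end Pool.Agent.Y504.CO
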