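import Pool.Agent.H66.L.S8.TH80.OMS.CycDefs

/-!
# `Ω`-stable diffeomorphisms with a countable nonwandering set: definitions and statements of the parts
-/

set_option autoImplicit false

open scoped Manifold ContDiff Topology
open Filter Set Metric

universe u

namespace Pool.Agent.Y504.CO

open Pool.Agent.H718R2.G Pool.Agent.TH80.OMS

/-! ### Linear algebra and analysis in finite-dimensional spaces -/

/-- The only bounded solution `v : ℤ → E` of `v (i+1) = B i (v i)` is `0`. -/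
def NoBdd {E : Type} [NormedAddCommGroup E] [NormedSpace ℝ E] (B : ℤ → E →L[ℝ] E) : Prop :=
  ∀ v : ℤ → E, (∃ C : ℝ, ∀ i, ‖v i‖ ≤ C) → (∀ i, v (i + 1) = B i (v i)) → ∀ i, v i = 0

/-- LB: uniform lower bound for sparse patterns. -/
def S_LB : Prop :=
  ∀ (E : Type) [NormedAddCommGroup E] [NormedSpace ℝ E] [FiniteDimensional ℝ E]
    (B : ℤ → E →L[ℝ] E) (A : E →L[ℝ] E), Tendsto B atTop (𝓝 A) → Tendsto B atBot (𝓝 A) →
    NoBdd (fun _ => A) → NoBdd B →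
    ∃ c : ℝ, 0 < c ∧ ∃ N₀ : ℕ, ∀ N : ℕ, N₀ ≤ N → ∀ (S : Set ℤ) (D : ℤ → E →L[ℝ] E),
      (∀ i, (∀ s ∈ S, (N : ℤ) < |i - s|) → D i = A) →
      (∀ i, ∀ s ∈ S, |i - s| ≤ (N : ℤ) → D i = B (i - s)) →
      ∀ v : ℤ → E, (∃ C : ℝ, ∀ i, ‖v i‖ ≤ C) → ∀ δ : ℝ,
        (∀ i, ‖v (i + 1) - D i (v i)‖ ≤ δ) → ∀ i, c * ‖v i‖ ≤ δ

/-- NW: the Newton method. -/
def S_NW : Prop :=
  ∀ (E₁ E₂ : Type) [NormedAddCommGroup E₁] [NormedSpace ℝ E₁] [FiniteDimensional ℝ E₁]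
    [NormedAddCommGroup E₂] [NormedSpace ℝ E₂] [FiniteDimensional ℝ E₂],
    Module.finrank ℝ E₁ = Module.finrank ℝ E₂ →
    ∀ (F : E₁ → E₂) (F' : E₁ → E₁ →L[ℝ] E₂) (y : E₁) (L : E₁ →L[ℝ] E₂) (c r : ℝ), 0 < c → 0 < r →
      (∀ v, c * ‖v‖ ≤ ‖L v‖) → (∀ x ∈ closedBall y r, HasFDerivAt F (F' x) x) →
      (∀ x ∈ closedBall y r, ‖F' x - L‖ ≤ c / 2) → ‖F y‖ ≤ c / 2 * r →
      ∃ x ∈ closedBall y r, F x = 0

/-- A fixed point `0` of the local map `G`, and a homoclinic orbit `ζ`: `G (ζ i) = ζ (i+1)` for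
`i ≠ 0` and `Ψ (ζ 0) = ζ 1`. The fixed point is hyperbolic and the homoclinic orbit is transverse. -/
structure HomData {E : Type} [NormedAddCommGroup E] [NormedSpace ℝ E] (G Ψ : E → E) (ζ : ℤ → E) :
    Prop where
  G0 : G 0 = 0
  dG0 : ContDiffAt ℝ 1 G 0
  top : Tendsto ζ atTop (𝓝 0)
  bot : Tendsto ζ atBot (𝓝 0)
  Gζ : ∀ i, i ≠ 0 → G (ζ i) = ζ (i + 1)
  dG : ∀ i, i ≠ 0 → ContDiffAt ℝ 1 G (ζ i)
  Ψζ : Ψ (ζ 0) = ζ 1
  dΨ : ContDiffAt ℝ 1 Ψ (ζ 0)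
  hyp : NoBdd (fun _ => fderiv ℝ G 0)
  tr : NoBdd (fun i => if i = 0 then fderiv ℝ Ψ (ζ 0) else fderiv ℝ G (ζ i))

/-- HS: periodic orbits which follow the homoclinic orbit in the blocks `j` with `σ j = true` and
stay near the fixed point in the other blocks. -/
def S_HS : Prop :=
  ∀ (E : Type) [NormedAddCommGroup E] [NormedSpace ℝ E] [FiniteDimensional ℝ E] (G Ψ : E → E)
    (ζ : ℤ → E), HomData G Ψ ζ → ∀ ε : ℝ, 0 < ε → ∃ N : ℕ, 1 ≤ N ∧ ∀ (q : ℕ) (σ : ℤ → Bool), 1 ≤ q →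
      (∀ j, σ (j + q) = σ j) → ∃ x : ℤ → E,
        (∀ i, x (i + (q : ℤ) * (2 * (N : ℤ) + 1)) = x i) ∧
        (∀ i, x (i + 1) = (if σ (i / (2 * (N : ℤ) + 1)) = true ∧ i % (2 * (N : ℤ) + 1) = (N : ℤ)
          then Ψ else G) (x i)) ∧
        ∀ i, ‖x i - (if σ (i / (2 * (N : ℤ) + 1)) = true then ζ (i % (2 * (N : ℤ) + 1) - (N : ℤ))
          else 0)‖ ≤ ε

/-- GEN: general position of two subspaces. -/
def S_GEN : Prop :=
  ∀ (n : ℕ) (P Q : Submodule ℝ (V n)), Module.finrank ℝ P + Module.finrank ℝ Q ≤ n →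
    ∀ κ : ℝ, 0 < κ → ∃ T : V n →L[ℝ] V n, ‖T‖ < κ ∧ Function.Injective (fun x => x + T x) ∧
      ∀ x ∈ P, x + T x ∈ Q → x = 0

/-- DIM: the solutions which are bounded in the future (or in the past) form a space of the expected
dimension at most. -/
def S_DIM : Prop :=
  ∀ (n : ℕ) (B : ℤ → V n →L[ℝ] V n) (A : V n →L[ℝ] V n), Tendsto B atTop (𝓝 A) →
    Tendsto B atBot (𝓝 A) → (∀ i, Function.Injective (B i)) → Function.Injective A →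
    NoBdd (fun _ => A) → ∃ P Q : Submodule ℝ (V n), Module.finrank ℝ P + Module.finrank ℝ Q ≤ n ∧
      (∀ v : ℤ → V n, (∃ C : ℝ, ∀ i, ‖v i‖ ≤ C) → (∀ i, i ≤ -1 → v (i + 1) = B i (v i)) → v 0 ∈ P) ∧
      (∀ v : ℤ → V n, (∃ C : ℝ, ∀ i, ‖v i‖ ≤ C) → (∀ i, 1 ≤ i → v (i + 1) = B i (v i)) → v 1 ∈ Q)

/-- LIN: a small linear perturbation of one map makes a homoclinic orbit transverse. -/
def S_LIN : Prop :=
  ∀ (n : ℕ) (B : ℤ → V n →L[ℝ] V n) (A : V n →L[ℝ] V n), Tendsto B atTop (𝓝 A) →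
    Tendsto B atBot (𝓝 A) → (∀ i, Function.Injective (B i)) → Function.Injective A →
    NoBdd (fun _ => A) → ∀ κ : ℝ, 0 < κ → ∃ T : V n →L[ℝ] V n, ‖T‖ < κ ∧
      NoBdd (fun i => if i = 0 then (B 0) ∘L (ContinuousLinearMap.id ℝ (V n) + T) else B i)

/-- `A` has an eigenvalue `cos θ + i sin θ` of modulus one (eigenvector `u + i w`). -/
def EigOne {n : ℕ} (A : V n →L[ℝ] V n) : Prop :=
  ∃ (θ : ℝ) (u w : V n), (u ≠ 0 ∨ w ≠ 0) ∧ A u = Real.cos θ • u - Real.sin θ • w ∧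
    A w = Real.sin θ • u + Real.cos θ • w

/-- EIG: hyperbolicity of a matrix. -/
def S_EIG : Prop :=
  ∀ (n : ℕ) (A : V n →L[ℝ] V n), (¬ NoBdd (fun _ => A) → EigOne A) ∧
    ((∃ μ : ℂ, ‖μ‖ = 1 ∧
      ((LinearMap.charpoly (A : V n →ₗ[ℝ] V n)).map (algebraMap ℝ ℂ)).IsRoot μ) →
        ¬ NoBdd (fun _ => A))

/-- A resonant matrix: `A ^ b` is the identity on the invariant subspace `W` and has no further
eigenvalue `1`; the linear maps `𝒮 ζ` preserve `W` and commute there with `A`, and `ζ ↦ 𝒮 ζ w₀` is an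
isomorphism onto `W`. -/
structure Res {n : ℕ} (A : V n →L[ℝ] V n) (b j : ℕ) (W : Submodule ℝ (V n)) (w₀ : V n)
    (𝒮 : V j →L[ℝ] (V n →L[ℝ] V n)) : Prop where
  b1 : 1 ≤ b
  dim : Module.finrank ℝ W = j
  w₀_mem : w₀ ∈ W
  w₀_ne : w₀ ≠ 0
  maps : ∀ x ∈ W, A x ∈ W
  pow : ∀ x ∈ W, A^[b] x = x
  quot : ∀ y, A^[b] y - y ∈ W → y ∈ W
  Smaps : ∀ ζ, ∀ x ∈ W, 𝒮 ζ x ∈ W
  Scomm : ∀ ζ, ∀ x ∈ W, A (𝒮 ζ x) = 𝒮 ζ (A x)
  Sinj : ∀ ζ, 𝒮 ζ w₀ = 0 → ζ = 0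

/-- ALG: a matrix with an eigenvalue of modulus one is near a resonant one. -/
def S_ALG : Prop :=
  ∀ (n : ℕ) (A : V n →L[ℝ] V n), EigOne A → ∀ ε : ℝ, 0 < ε → ∃ (T : V n →L[ℝ] V n) (b j : ℕ)
    (W : Submodule ℝ (V n)) (w₀ : V n) (𝒮 : V j →L[ℝ] (V n →L[ℝ] V n)),
    ‖T‖ < ε ∧ Res (A ∘L (ContinuousLinearMap.id ℝ (V n) + T)) b j W w₀ 𝒮

/-- BIF: periodic points bifurcate from a resonant fixed point, by linear perturbations. -/
def S_BIF : Prop :=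
  ∀ (n : ℕ) (R : V n → V n), R 0 = 0 → ContDiffAt ℝ 1 R 0 → ∀ (b j : ℕ) (W : Submodule ℝ (V n))
    (w₀ : V n) (𝒮 : V j →L[ℝ] (V n →L[ℝ] V n)), Res (fderiv ℝ R 0) b j W w₀ 𝒮 →
    ∀ ε : ℝ, 0 < ε → ∃ (ζ : V j) (x : V n), ‖ζ‖ < ε ∧ x ≠ 0 ∧
      (∀ i ≤ b, ‖(fun v => R (v + 𝒮 ζ v))^[i] x‖ < ε) ∧ (fun v => R (v + 𝒮 ζ v))^[b] x = x

/-! ### Topological dynamics -/

/-- the forward orbit -/
def orb {X : Type u} (f : X → X) (p : X) : Set X := range fun i : ℕ => f^[i] p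

/-- The forward orbit of `s` converges to the orbit of `p`. -/
def OmegaTo {X : Type u} [TopologicalSpace X] (f : X → X) (s p : X) : Prop :=
  ∀ O : Set X, IsOpen O → orb f p ⊆ O → ∀ᶠ i : ℕ in atTop, f^[i] s ∈ O

/-- The backward orbit of `w` converges to the orbit of `p`. -/
def AlphaTo {X : Type u} [TopologicalSpace X] (f : X → X) (w p : X) : Prop :=
  ∃ x : ℤ → X, (∀ i, f (x i) = x (i + 1)) ∧ x 0 = w ∧
    ∀ O : Set X, IsOpen O → orb f p ⊆ O → ∀ᶠ i : ℤ in atBot, x i ∈ O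

/-- The periodic orbit of `p` is isolated among the full orbits. -/
def Isolated {X : Type u} [TopologicalSpace X] (f : X → X) (p : X) : Prop :=
  ∃ O : Set X, IsOpen O ∧ orb f p ⊆ O ∧
    ∀ x : ℤ → X, (∀ i, f (x i) = x (i + 1)) → (∀ i, x i ∈ closure O) → x 0 ∈ orb f p

/-- `w` leaves the periodic orbit of `p`, `s` enters it, and there are orbit segments from points
near `w` to points near `s` which do not meet fixed neighbourhoods of `w` and `s` in between. -/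
def Out {X : Type u} [TopologicalSpace X] (f : X → X) : Prop :=
  ∃ p w s : X, p ∈ Per f ∧ w ∉ orb f p ∧ s ∉ orb f p ∧ AlphaTo f w p ∧ OmegaTo f s p ∧
    ∃ O ∈ 𝓝 w, ∃ O' ∈ 𝓝 s, ∀ W ∈ 𝓝 w, ∀ W' ∈ 𝓝 s, ∃ w' ∈ W, ∃ k : ℕ, f^[k] w' ∈ W' ∧
      ∀ i, 0 < i → i < k → f^[i] w' ∉ O ∧ f^[i] w' ∉ O'

/-- An orbit homoclinic to the periodic orbit of `p`. -/
def Homoclinic {X : Type u} [TopologicalSpace X] (f : X → X) (p z : X) : Prop :=
  p ∈ Per f ∧ z ∉ orb f p ∧ AlphaTo f z p ∧ OmegaTo f z p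

/-- TOP: coded periodic orbits give an uncountable nonwandering set. -/
def S_TOP : Prop :=
  ∀ (X : Type u) [TopologicalSpace X] [CompactSpace X] [T2Space X] (g : X → X), Continuous g →
    ∀ K : Bool → Set X, (∀ b, IsClosed (K b)) → Disjoint (K true) (K false) → ∀ τ : Bool → ℕ,
    (∀ (q : ℕ) (σ : ℕ → Bool), ∃ x ∈ Per g, ∀ j < q,
      g^[∑ i ∈ Finset.range j, τ (σ i)] x ∈ K (σ j)) → ¬ (Omega g).Countable

/-- The orbit segment `p, f p, ..., f^n p`, `n ≥ 1`, is almost closed and `ε`-close to `H`. -/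
structure Seg {X : Type u} [MetricSpace X] (f : X → X) (H : Set X) (ε : ℝ) (p : X) (n : ℕ) :
    Prop where
  n1 : 1 ≤ n
  ends : dist (f^[n] p) p < ε
  near : ∀ i ≤ n, ∃ y ∈ H, dist (f^[i] p) y < ε
  dense : ∀ y ∈ H, ∃ i ≤ n, dist (f^[i] p) y < ε

/-- `H` is a limit of almost closed orbit segments. -/
def IsLim {X : Type u} [MetricSpace X] (f : X → X) (H : Set X) : Prop :=
  IsClosed H ∧ H.Nonempty ∧ ∀ ε : ℝ, 0 < ε → ∃ p n, Seg f H ε p n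

/-- a minimal limit which contains a nonperiodic point -/
def MinLim {X : Type u} [MetricSpace X] (f : X → X) (H : Set X) : Prop :=
  IsLim f H ∧ ¬ H ⊆ Per f ∧ ∀ H' ⊆ H, IsLim f H' → ¬ H' ⊆ Per f → H' = H

/-- `z` is an isolated point of `H`. -/
def Isol {X : Type u} [MetricSpace X] (H : Set X) (ρ : ℝ) (z : X) : Prop :=
  0 < ρ ∧ z ∈ H ∧ ∀ y ∈ H, dist y z < ρ → y = z

/-- T0: limits of almost closed orbit segments. -/
def S_T0 : Prop :=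
  ∀ (X : Type u) [MetricSpace X] [CompactSpace X] (f : X ≃ₜ X),
    (∀ (p : ℕ → X) (n : ℕ → ℕ), (∀ k, 1 ≤ n k) →
      Tendsto (fun k => dist (f^[n k] (p k)) (p k)) atTop (𝓝 0) →
      ∃ (φ : ℕ → ℕ) (H : Set X), StrictMono φ ∧ IsClosed H ∧ H.Nonempty ∧
        ∀ ε : ℝ, 0 < ε → ∀ᶠ k in atTop, Seg f H ε (p (φ k)) (n (φ k))) ∧
    (∀ H : Set X, IsLim f H → f '' H = H) ∧
    (∀ H : Set X, IsLim f H → (Omega f).Countable → H.Countable) ∧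
    (∀ H P Q : Set X, IsLim f H → IsClosed P → IsClosed Q → P ∪ Q = H → Disjoint P Q →
      (∀ x ∈ P, f x ∈ P) → (∀ x ∈ Q, f x ∈ Q) → P.Nonempty → Q = ∅)

/-- T1: existence of minimal limits. -/
def S_T1 : Prop :=
  ∀ (X : Type u) [MetricSpace X] [CompactSpace X] (f : X ≃ₜ X), (Omega f).Countable →
    (∀ p ∈ Per f, Isolated f p) → ¬ ((Omega f).Finite ∧ Omega f ⊆ Per f) → ∃ H, MinLim f H

/-- T2: rebasing: in a minimal limit, the segments between two visits near a nonperiodic point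
approximate the whole of `H`. -/
def S_T2 : Prop :=
  ∀ (X : Type u) [MetricSpace X] [CompactSpace X] (f : X ≃ₜ X) (H : Set X), MinLim f H →
    ∀ (y : X) (p : ℕ → X) (n i j : ℕ → ℕ), y ∉ Per f → (∀ k, i k < j k ∧ j k ≤ n k) →
      (∀ ε : ℝ, 0 < ε → ∀ᶠ k in atTop, Seg f H ε (p k) (n k)) →
      Tendsto (fun k => f^[i k] (p k)) atTop (𝓝 y) →
      Tendsto (fun k => f^[j k] (p k)) atTop (𝓝 y) →
      ∀ ε : ℝ, 0 < ε → ∀ᶠ k in atTop, Seg f H ε (f^[i k] (p k)) (j k - i k)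

/-- TI: isolated points of minimal limits are dense, not periodic, and their forward orbits converge
to periodic orbits. -/
def S_TI : Prop :=
  ∀ (X : Type u) [MetricSpace X] [CompactSpace X] (f : X ≃ₜ X), (Omega f).Countable →
    (∀ p ∈ Per f, Isolated f p) → ∀ H : Set X, MinLim f H →
    (∀ y ∈ H, ∀ δ : ℝ, 0 < δ → ∃ z ρ, Isol H ρ z ∧ dist z y < δ) ∧
    (∀ z ρ, Isol H ρ z → z ∉ Per f) ∧
    (∀ z ρ, Isol H ρ z → ∃ p ∈ Per f, OmegaTo f z p)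

/-- T3: the case of a revisited isolated point. -/
def S_T3 : Prop :=
  ∀ (X : Type u) [MetricSpace X] [CompactSpace X] (f : X ≃ₜ X), (Omega f).Countable →
    (∀ p ∈ Per f, Isolated f p) → ∀ H : Set X, MinLim f H → ∀ (z : X) (ρ : ℝ), Isol H ρ z →
    (∀ ε : ℝ, 0 < ε → ∃ p n, Seg f H ε p n ∧ dist p z < ε ∧ dist (f^[n] p) z < ε ∧
      ∀ i, 0 < i → i < n → ρ ≤ dist (f^[i] p) z) → Out f

/-- T4: minimal limits give connections. -/
def S_T4 : Prop :=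
  ∀ (X : Type u) [MetricSpace X] [CompactSpace X] (f : X ≃ₜ X), (Omega f).Countable →
    (∀ p ∈ Per f, Isolated f p) → ∀ H : Set X, MinLim f H → Out f

end Pool.Agent.Y504.CO
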